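import Pool.Agent.ACK.StmtsA

set_option autoImplicit false

namespace Pool.Agent.ACK.H8

/-- the tuples without the order condition -/
def X (c : ℕ) : Set (Fin 6 → ℕ) := {a | (∀ e, 1 ≤ a e) ∧ ∑ e, a e = c ∧ Even (a 0) ∧ Even (a 1) ∧
  Odd (a 2) ∧ Odd (a 3) ∧ Odd (a 4) ∧ Odd (a 5)}

/-- the exchange of the first two entries -/
def sw (a : Fin 6 → ℕ) : Fin 6 → ℕ := ![a 1, a 0, a 2, a 3, a 4, a 5]

/-- the reduced tuple -/
def kk (a : Fin 6 → ℕ) : Fin 6 → ℕ := ![a 0 / 2 - 1, a 1 / 2 - 1, a 2 / 2, a 3 / 2, a 4 / 2, a 5 / 2]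

/-- four entries -/
def dd (c : ℕ) (a : Fin 6 → ℕ) : Fin 4 → Fin (c + 1) :=
  ![Fin.ofNat (c + 1) (a 0), Fin.ofNat (c + 1) (a 2), Fin.ofNat (c + 1) (a 3), Fin.ofNat (c + 1) (a 4)]

theorem ext6 {a b : Fin 6 → ℕ} (h0 : a 0 = b 0) (h1 : a 1 = b 1) (h2 : a 2 = b 2) (h3 : a 3 = b 3)
    (h4 : a 4 = b 4) (h5 : a 5 = b 5) : a = b := by
  funext e
  fin_cases e
  · exact h0
  · exact h1
  · exact h2
  · exact h3
  · exact h4
  · exact h5

theorem cardX (m c : ℕ) (hc : c = 2 * m + 16) : Set.encard (X c) ≤ (((m + 9).choose 5 : ℕ) : ℕ∞) := by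
  have hcard : (Finset.finsuppAntidiag (Finset.univ : Finset (Fin 6)) (m + 4)).card = (m + 9).choose 5 := by
    rw [Finset.card_finsuppAntidiag_nat_eq_choose, Finset.card_univ, Fintype.card_fin]
    have e1 : 6 + (m + 4) - 1 = m + 9 := by omega
    rw [e1]
    exact Nat.choose_symm_of_eq_add (by omega)
  rw [← hcard, ← Set.encard_coe_eq_coe_finsetCard]
  refine Set.encard_le_encard_of_injOn (f := fun a => Finsupp.equivFunOnFinite.symm (kk a)) ?_ ?_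
  · intro a ha
    obtain ⟨h1, hs, e0, e1, o2, o3, o4, o5⟩ := ha
    have p0 := h1 0
    have p1 := h1 1
    obtain ⟨k0, e0⟩ := e0
    obtain ⟨k1, e1⟩ := e1
    obtain ⟨k2, o2⟩ := o2
    obtain ⟨k3, o3⟩ := o3
    obtain ⟨k4, o4⟩ := o4
    obtain ⟨k5, o5⟩ := o5
    simp only [Fin.sum_univ_six] at hs
    rw [Finset.mem_coe, Finset.mem_finsuppAntidiag]
    refine ⟨?_, Finset.subset_univ _⟩
    simp only [Finsupp.equivFunOnFinite_symm_apply_apply, Fin.sum_univ_six, kk]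
    simp
    omega
  · intro a ha b hb hab
    have hk : kk a = kk b := Finsupp.equivFunOnFinite.symm.injective hab
    obtain ⟨h1, hs, e0, e1, o2, o3, o4, o5⟩ := ha
    obtain ⟨h1', hs', e0', e1', o2', o3', o4', o5'⟩ := hb
    have p0 := h1 0
    have p1 := h1 1
    have p0' := h1' 0
    have p1' := h1' 1
    obtain ⟨k0, e0⟩ := e0
    obtain ⟨k1, e1⟩ := e1
    obtain ⟨k2, o2⟩ := o2
    obtain ⟨k3, o3⟩ := o3
    obtain ⟨k4, o4⟩ := o4
    obtain ⟨k5, o5⟩ := o5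
    obtain ⟨l0, e0'⟩ := e0'
    obtain ⟨l1, e1'⟩ := e1'
    obtain ⟨l2, o2'⟩ := o2'
    obtain ⟨l3, o3'⟩ := o3'
    obtain ⟨l4, o4'⟩ := o4'
    obtain ⟨l5, o5'⟩ := o5'
    have q0 : a 0 / 2 - 1 = b 0 / 2 - 1 := congrFun hk 0
    have q1 : a 1 / 2 - 1 = b 1 / 2 - 1 := congrFun hk 1
    have q2 : a 2 / 2 = b 2 / 2 := congrFun hk 2
    have q3 : a 3 / 2 = b 3 / 2 := congrFun hk 3
    have q4 : a 4 / 2 = b 4 / 2 := congrFun hk 4
    have q5 : a 5 / 2 = b 5 / 2 := congrFun hk 5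
    apply ext6 <;> omega

theorem cardD (c : ℕ) : Set.encard {a : Fin 6 → ℕ | a ∈ X c ∧ a 0 = a 1} ≤ (((c + 1) ^ 4 : ℕ) : ℕ∞) := by
  have hu : Set.encard (Set.univ : Set (Fin 4 → Fin (c + 1))) = (((c + 1) ^ 4 : ℕ) : ℕ∞) := by
    rw [Set.encard_univ, ENat.card_eq_coe_fintype_card]
    simp
  rw [← hu]
  refine Set.encard_le_encard_of_injOn (f := dd c) (fun _ _ => Set.mem_univ _) ?_
  intro a ha b hb hab
  obtain ⟨⟨_, hs, _⟩, h01⟩ := ha
  obtain ⟨⟨_, hs', _⟩, h01'⟩ := hb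
  simp only [Fin.sum_univ_six] at hs hs'
  have q0 : a 0 % (c + 1) = b 0 % (c + 1) := congrArg Fin.val (congrFun hab 0)
  have q1 : a 2 % (c + 1) = b 2 % (c + 1) := congrArg Fin.val (congrFun hab 1)
  have q2 : a 3 % (c + 1) = b 3 % (c + 1) := congrArg Fin.val (congrFun hab 2)
  have q3 : a 4 % (c + 1) = b 4 % (c + 1) := congrArg Fin.val (congrFun hab 3)
  rw [Nat.mod_eq_of_lt (by omega), Nat.mod_eq_of_lt (by omega)] at q0 q1 q2 q3
  apply ext6 <;> omega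

theorem sw_inj : Function.Injective sw := by
  intro a b h
  have q0 : a 1 = b 1 := congrFun h 0
  have q1 : a 0 = b 0 := congrFun h 1
  have q2 : a 2 = b 2 := congrFun h 2
  have q3 : a 3 = b 3 := congrFun h 3
  have q4 : a 4 = b 4 := congrFun h 4
  have q5 : a 5 = b 5 := congrFun h 5
  exact ext6 q1 q0 q2 q3 q4 q5

theorem sw_mem {c : ℕ} {a : Fin 6 → ℕ} (ha : a ∈ X c) : sw a ∈ X c := by
  obtain ⟨h1, hs, e0, e1, o2, o3, o4, o5⟩ := ha
  refine ⟨?_, ?_, e1, e0, o2, o3, o4, o5⟩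
  · intro e
    fin_cases e
    · exact h1 1
    · exact h1 0
    · exact h1 2
    · exact h1 3
    · exact h1 4
    · exact h1 5
  · simp only [Fin.sum_univ_six] at hs ⊢
    have q0 : sw a 0 = a 1 := rfl
    have q1 : sw a 1 = a 0 := rfl
    have q2 : sw a 2 = a 2 := rfl
    have q3 : sw a 3 = a 3 := rfl
    have q4 : sw a 4 = a 4 := rfl
    have q5 : sw a 5 = a 5 := rfl
    rw [q0, q1, q2, q3, q4, q5]
    omega

theorem qec : QecStmt := by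
  intro m c hc
  set Q : Set (Fin 6 → ℕ) := {a | Qe c a} with hQ
  have hsub : Q ⊆ X c := fun a ha => ⟨ha.1, ha.2.1, ha.2.2.1, ha.2.2.2.1, ha.2.2.2.2.1, ha.2.2.2.2.2.1,
    ha.2.2.2.2.2.2.1, ha.2.2.2.2.2.2.2.1⟩
  have hle : ∀ a ∈ Q, a 0 ≤ a 1 := fun a ha => ha.2.2.2.2.2.2.2.2
  have himg : (sw '' Q).encard = Q.encard := (sw_inj.injOn).encard_image
  have h1 : (Q ∪ sw '' Q).encard ≤ (X c).encard := by
    apply Set.encard_le_encard
    rintro a (ha | ⟨b, hb, rfl⟩)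
    · exact hsub ha
    · exact sw_mem (hsub hb)
  have h2 : (Q ∩ sw '' Q).encard ≤ {a : Fin 6 → ℕ | a ∈ X c ∧ a 0 = a 1}.encard := by
    apply Set.encard_le_encard
    rintro a ⟨ha, b, hb, hba⟩
    refine ⟨hsub ha, ?_⟩
    have q0 : a 0 = b 1 := by rw [← hba]; rfl
    have q1 : a 1 = b 0 := by rw [← hba]; rfl
    have := hle a ha
    have := hle b hb
    omega
  have h3 := Set.encard_union_add_encard_inter Q (sw '' Q)
  calc 2 * Q.encard = Q.encard + (sw '' Q).encard := by rw [himg, two_mul]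
    _ = (Q ∪ sw '' Q).encard + (Q ∩ sw '' Q).encard := h3.symm
    _ ≤ (((m + 9).choose 5 : ℕ) : ℕ∞) + (((c + 1) ^ 4 : ℕ) : ℕ∞) :=
        add_le_add (h1.trans (cardX m c hc)) (h2.trans (cardD c))
    _ = (((m + 9).choose 5 + (c + 1) ^ 4 : ℕ) : ℕ∞) := by push_cast; rfl

end Pool.Agent.ACK.H8
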