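import Pool.Agent.ACK.StmtsB

set_option autoImplicit false

namespace Pool.Agent.ACK.H8

open Pool.Agent.ACK.B

/-- the incidence of circles and edges -/
noncomputable def inc {n : ℕ} (w : ZMod n → ℕ) (s : ℕ → Bool) (x : Quot (CR w s)) (p : ZMod n) : ZMod 2 :=
  open Classical in if cl w s p = x then 1 else 0

theorem sum_inc {n : ℕ} [NeZero n] (w : ZMod n → ℕ) (s : ℕ → Bool) (p0 : ZMod n) (S : ZMod n → ZMod 2)
    (F : Finset (ZMod n)) (hF : ∀ p, p ∈ F ↔ cl w s p = cl w s p0) :
    ∑ p, inc w s (cl w s p0) p * S p = ∑ p ∈ F, S p := by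
  classical
  rw [← Finset.sum_subset (Finset.subset_univ F)]
  · refine Finset.sum_congr rfl ?_
    intro p hp
    have h := (hF p).1 hp
    unfold inc
    rw [if_pos h, one_mul]
  · intro p _ hp
    have h : ¬ cl w s p = cl w s p0 := fun h => hp ((hF p).2 h)
    unfold inc
    rw [if_neg h, zero_mul]

theorem ev_iff {n : ℕ} [NeZero n] (w : ZMod n → ℕ) (s : ℕ → Bool) (S : ZMod n → ZMod 2) :
    Ev w s S ↔ ∀ x : Quot (CR w s), ∑ p, inc w s x p * S p = 0 := by
  classical
  constructor
  · intro h x
    obtain ⟨p0, rfl⟩ := Quot.exists_rep x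
    have h1 := h p0 (Finset.univ.filter (fun p => cl w s p = cl w s p0)) (by intro p; simp)
    have h2 := sum_inc w s p0 S (Finset.univ.filter (fun p => cl w s p = cl w s p0)) (by intro p; simp)
    exact h2.trans h1
  · intro h p0 F hF
    rw [← sum_inc w s p0 S F hF]
    exact h (cl w s p0)

theorem inc_sum {n : ℕ} [NeZero n] (w : ZMod n → ℕ) (s : ℕ → Bool) [Fintype (Quot (CR w s))]
    (f : Quot (CR w s) → ZMod 2) (p : ZMod n) : ∑ x, inc w s x p * f x = f (cl w s p) := by
  classical
  rw [Finset.sum_eq_single (cl w s p)]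
  · unfold inc
    rw [if_pos rfl, one_mul]
  · intro x _ hx
    unfold inc
    rw [if_neg (fun h => hx h.symm), zero_mul]
  · intro h
    exact absurd (Finset.mem_univ _) h

theorem rkb (h1 : KrnStmt) : RkbStmt := by
  classical
  intro n _ w s hG
  haveI : Finite (Quot (CR w s)) := Finite.of_surjective _ (Quot.mk_surjective (r := CR w s))
  haveI : Finite (Quot (CR w (op s))) := Finite.of_surjective _ (Quot.mk_surjective (r := CR w (op s)))
  letI : Fintype (Quot (CR w s)) := Fintype.ofFinite _
  letI : Fintype (Quot (CR w (op s))) := Fintype.ofFinite _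
  let M : Matrix (Quot (CR w s) ⊕ Quot (CR w (op s))) (ZMod n) (ZMod 2) :=
    Matrix.of (fun a p => Sum.elim (fun x => inc w s x p) (fun y => inc w (op s) y p) a)
  have hker : LinearMap.ker M.mulVecLin = VB w s := by
    ext S
    rw [LinearMap.mem_ker]
    have hmem : S ∈ VB w s ↔ Ev w s S ∧ Ev w (op s) S := Iff.rfl
    rw [hmem, ev_iff, ev_iff]
    constructor
    · intro h
      refine ⟨fun x => ?_, fun y => ?_⟩
      · exact congrFun h (Sum.inl x)
      · exact congrFun h (Sum.inr y)
    · rintro ⟨ha, hb⟩
      funext z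
      rcases z with x | y
      · exact ha x
      · exact hb y
  have hkerT : LinearMap.ker M.transpose.mulVecLin =
      Submodule.span (ZMod 2) {(fun _ => 1 : Quot (CR w s) ⊕ Quot (CR w (op s)) → ZMod 2)} := by
    ext f
    rw [LinearMap.mem_ker, Submodule.mem_span_singleton]
    have key : ∀ p, M.transpose.mulVecLin f p = f (Sum.inl (cl w s p)) + f (Sum.inr (cl w (op s) p)) := by
      intro p
      have e1 : M.transpose.mulVecLin f p = ∑ a, M a p * f a := rfl
      rw [e1, Fintype.sum_sum_type]
      have e2 : ∑ x, M (Sum.inl x) p * f (Sum.inl x) = f (Sum.inl (cl w s p)) :=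
        inc_sum w s (fun x => f (Sum.inl x)) p
      have e3 : ∑ y, M (Sum.inr y) p * f (Sum.inr y) = f (Sum.inr (cl w (op s) p)) :=
        inc_sum w (op s) (fun y => f (Sum.inr y)) p
      rw [e2, e3]
    constructor
    · intro h
      have h0 : ∀ p, f (Sum.inl (cl w s p)) = f (Sum.inr (cl w (op s) p)) := by
        intro p
        have h2 : f (Sum.inl (cl w s p)) + f (Sum.inr (cl w (op s) p)) = 0 := by
          rw [← key p, h]; rfl
        exact CharTwo.add_eq_zero.1 h2
      have hc := h1 n w s hG (fun p => f (Sum.inl (cl w s p)))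
        (fun p q hpq => by
          show f (Sum.inl (cl w s p)) = f (Sum.inl (cl w s q))
          have : cl w s p = cl w s q := Quot.sound hpq
          rw [this])
        (fun p q hpq => by
          show f (Sum.inl (cl w s p)) = f (Sum.inl (cl w s q))
          have : cl w (op s) p = cl w (op s) q := Quot.sound hpq
          rw [h0 p, h0 q, this])
      refine ⟨f (Sum.inl (cl w s 0)), ?_⟩
      funext z
      rcases z with x | y
      · obtain ⟨p, rfl⟩ := Quot.exists_rep x
        have := hc 0 p
        show f (Sum.inl (cl w s 0)) * 1 = f (Sum.inl (cl w s p))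
        rw [mul_one]; exact this
      · obtain ⟨p, rfl⟩ := Quot.exists_rep y
        have := hc 0 p
        show f (Sum.inl (cl w s 0)) * 1 = f (Sum.inr (cl w (op s) p))
        rw [mul_one, ← h0 p]; exact this
    · rintro ⟨c, rfl⟩
      funext p
      rw [key p]
      show c * 1 + c * 1 = 0
      exact CharTwo.add_self_eq_zero _
  have hne : (fun _ => 1 : Quot (CR w s) ⊕ Quot (CR w (op s)) → ZMod 2) ≠ 0 := by
    intro h
    have := congrFun h (Sum.inl (cl w s 0))
    exact one_ne_zero this
  have r1 := LinearMap.finrank_range_add_finrank_ker M.mulVecLin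
  have r2 := LinearMap.finrank_range_add_finrank_ker M.transpose.mulVecLin
  rw [hker] at r1
  rw [hkerT, finrank_span_singleton hne] at r2
  have r3 : M.transpose.rank = M.rank := Matrix.rank_transpose M
  unfold Matrix.rank at r3
  rw [Module.finrank_pi, ZMod.card] at r1
  rw [Module.finrank_pi, Fintype.card_sum] at r2
  have c1 : nc w s = Fintype.card (Quot (CR w s)) := Nat.card_eq_fintype_card
  have c2 : nc w (op s) = Fintype.card (Quot (CR w (op s))) := Nat.card_eq_fintype_card
  rw [c1, c2]
  omega

end Pool.Agent.ACK.H8
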